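import Pool.Agent.T9h45.CP.Spec
import Pool.Agent.TH104.HY.E

/-!
# Piece G: random types for atoms
-/

set_option autoImplicit false

namespace Pool.Agent.T9h81.CP

open Finset Pool.T9h45.CP Pool.T9h45.HY Pool.Agent.TH104.HY

/-- the graph of the atoms -/
def atomG {V Q : Type} (G : SimpleGraph V) (π : V → Q) : SimpleGraph Q where
  Adj q r := q ≠ r ∧ ∃ v w, π v = q ∧ π w = r ∧ G.Adj v w
  symm := ⟨fun q r h => ⟨h.1.symm, by
    obtain ⟨v, w, h1, h2, h3⟩ := h.2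
    exact ⟨w, v, h2, h1, h3.symm⟩⟩⟩
  loopless := ⟨fun q h => h.1 rfl⟩

open Classical in
lemma le_cn {V : Type} [Fintype V] (P : V → Prop) (S : Finset V) (h : ∀ v ∈ S, P v) :
    S.card ≤ cn P := by
  unfold cn
  apply card_le_card
  intro v hv
  rw [mem_filter]
  exact ⟨mem_univ _, h v hv⟩

lemma lb_of_totLab {V : Type} (G : SimpleGraph V) (p N : ℕ) (hN : 1 ≤ N)
    (h : TotLab G p (N - 1)) : Lb G p N := by
  obtain ⟨fV, fE, h1, h2, h3, h4, h5⟩ := h
  refine ⟨fV, fun v w => fE s(v, w), ?_, ?_, ?_, h3, h4, h5⟩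
  · intro v
    have := h1 v
    omega
  · intro v w hvw
    have := h2 s(v, w) hvw
    change fE s(v, w) < N
    omega
  · intro v w _
    change fE s(v, w) = fE s(w, v)
    rw [Sym2.eq_swap]

lemma nums (D W W2 p : ℕ) (hD : 200000 ≤ D)
    (hW1 : (W : ℝ) ≤ (1 + 1 / 4000) * (101 / 100 * D) / 2000)
    (hW2 : (1 + 1 / 4000) * (101 / 100 * D) / 2000 < (W : ℝ) + 1)
    (hV : (W2 : ℝ) ≤ (1 + 1 / 4000) * (4 / 5 * D) / 2000) (hp : D ≤ 2 * p) :
    (899 : ℤ) * (W2 + 1) ≤ 799 * (W + 1) ∧ (202 : ℤ) * (W2 + 1) + 1799 * (W + 1) ≤ D + 2 ∧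
    (1000 : ℤ) * (W2 + 1) + 2001 * (W + 1) ≤ D + p + 2 ∧ (201 : ℤ) * (W + 1) ≤ p - 1 := by
  have hDr : (200000 : ℝ) ≤ D := by exact_mod_cast hD
  have hpr : (D : ℝ) ≤ 2 * p := by exact_mod_cast hp
  have h1 : (899 : ℝ) * (W2 + 1) ≤ 799 * (W + 1) := by linarith
  have h2 : (202 : ℝ) * (W2 + 1) + 1799 * (W + 1) ≤ D + 2 := by linarith
  have h3 : (1000 : ℝ) * (W2 + 1) + 2001 * (W + 1) ≤ D + p + 2 := by linarith
  have h4 : (201 : ℝ) * (W + 1) ≤ p - 1 := by linarith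
  refine ⟨by exact_mod_cast h1, by exact_mod_cast h2, by exact_mod_cast h3, by exact_mod_cast h4⟩

theorem atoms : SAtoms := by
  classical
  obtain ⟨N₀, hN₀⟩ : ∃ N₀ : ℕ, 48 * (2 * (1000 : ℝ)) * (192 * (1000 : ℝ) ^ 3 / (1 / 4)) ^ 3 ≤ N₀ :=
    exists_nat_ge _
  refine ⟨10 * N₀ + 200000, ?_⟩
  intro V Q _ _ G π D D1 s1 p hD0 hπ hπ2 hD1 hs1 hsD hDs h54 h101 hp
  have hD2 : 200000 ≤ D := by omega
  have hN : N₀ ≤ s1 := by omega
  have hs1p : 1 ≤ s1 := by omega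
  have hD1p : 1 ≤ D1 := by omega
  -- reals
  have rD1 : (5 : ℝ) * D1 ≤ 4 * D := by exact_mod_cast h54
  have r101 : (100 : ℝ) * (D1 + s1) ≤ 101 * D := by exact_mod_cast h101
  have rsD : (s1 : ℝ) ≤ D1 := by exact_mod_cast hsD
  have rDs : (D : ℝ) ≤ 10 * s1 := by exact_mod_cast hDs
  have rN : (N₀ : ℝ) ≤ s1 := by exact_mod_cast hN
  have rD1p : (0 : ℝ) < D1 := by
    have : (1 : ℝ) ≤ D1 := by exact_mod_cast hD1p
    linarith
  obtain ⟨Γ, hΓ⟩ : ∃ Γ : SimpleGraph Q, Γ = atomG G π := ⟨_, rfl⟩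
  have hΓa : ∀ q r, Γ.Adj q r ↔ (q ≠ r ∧ ∃ v w, π v = q ∧ π w = r ∧ G.Adj v w) := by
    intro q r
    rw [hΓ]
    exact Iff.rfl
  have hdeg : ∀ q, Γ.degree q ≤ D1 := by
    intro q
    refine le_trans ?_ (hD1 q)
    rw [← SimpleGraph.card_neighborFinset_eq_degree]
    apply le_cn
    intro r hr
    rw [SimpleGraph.mem_neighborFinset, hΓa] at hr
    exact ⟨hr.1.symm, hr.2⟩
  have hBc : ∀ q, ((Γ.neighborFinset q).filter (fun r => cn (fun v => π v = r) = 2)).card ≤ s1 := by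
    intro q
    refine le_trans ?_ (hs1 q)
    apply le_cn
    intro r hr
    rw [mem_filter, SimpleGraph.mem_neighborFinset, hΓa] at hr
    exact ⟨⟨hr.1.1.symm, hr.1.2⟩, hr.2⟩
  obtain ⟨t, ht1, ht2, ht3⟩ := partition2 Γ 2000 D1 s1 (by norm_num) hD1p hsD hdeg
    (fun q => (Γ.neighborFinset q).filter (fun r => cn (fun v => π v = r) = 2))
    (fun q => filter_subset _ _) hBc (1 / 4000) (by norm_num) (by norm_num) (by
      have h := exp_cond (m := 1000) (e := 1 / 4) (D := D1) (s' := s1) (x := 1 / 4000)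
        (by norm_num) (by norm_num) rD1p (by norm_num) (by linarith) (by linarith)
      have e1 : ((2000 : ℕ) : ℝ) = 2 * 1000 := by norm_num
      rw [e1]
      push_cast
      exact h)
  obtain ⟨w0, hw0⟩ : ∃ w0 : ℕ, w0 = ⌊(1 + 1 / 4000 : ℝ) * D1 / (2000 : ℕ)⌋₊ := ⟨_, rfl⟩
  obtain ⟨k0, hk0⟩ : ∃ k0 : ℕ, k0 = ⌊(1 + 1 / 4000 : ℝ) * s1 / (2000 : ℕ)⌋₊ := ⟨_, rfl⟩
  rw [← hw0] at ht2
  rw [← hk0] at ht3
  obtain ⟨W, hW⟩ : ∃ W : ℕ, W = ⌊(1 + 1 / 4000 : ℝ) * (101 / 100 * D) / 2000⌋₊ := ⟨_, rfl⟩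
  obtain ⟨W2, hW2⟩ : ∃ W2 : ℕ, W2 = ⌊(1 + 1 / 4000 : ℝ) * (4 / 5 * D) / 2000⌋₊ := ⟨_, rfl⟩
  have rD0 : (0 : ℝ) ≤ D := by positivity
  have a1 : (w0 : ℝ) ≤ (1 + 1 / 4000) * D1 / 2000 := by
    rw [hw0]
    have := Nat.floor_le (a := (1 + 1 / 4000 : ℝ) * D1 / (2000 : ℕ)) (by positivity)
    push_cast at this ⊢
    exact this
  have a2 : (k0 : ℝ) ≤ (1 + 1 / 4000) * s1 / 2000 := by
    rw [hk0]
    have := Nat.floor_le (a := (1 + 1 / 4000 : ℝ) * s1 / (2000 : ℕ)) (by positivity)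
    push_cast at this ⊢
    exact this
  have hwW : w0 + k0 ≤ W := by
    rw [hW]
    apply Nat.le_floor
    push_cast
    linarith
  have hwW2 : w0 ≤ W2 := by
    rw [hW2]
    apply Nat.le_floor
    linarith
  have hW2W : W2 ≤ W := by
    rw [hW2, hW]
    apply Nat.floor_mono
    linarith
  have b1 : (W : ℝ) ≤ (1 + 1 / 4000) * (101 / 100 * D) / 2000 := by
    rw [hW]
    exact Nat.floor_le (by positivity)
  have b2 : (1 + 1 / 4000) * (101 / 100 * D) / 2000 < (W : ℝ) + 1 := by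
    rw [hW]
    exact Nat.lt_floor_add_one _
  have b3 : (W2 : ℝ) ≤ (1 + 1 / 4000) * (4 / 5 * D) / 2000 := by
    rw [hW2]
    exact Nat.floor_le (by positivity)
  obtain ⟨n1, n2, n3, n4⟩ := nums D W W2 p hD2 b1 b2 b3 hp
  -- the colours of the atoms
  obtain ⟨r⟩ : Nonempty (Q ≃ Fin (Fintype.card Q)) := ⟨Fintype.equivFin Q⟩
  obtain ⟨c, hc1, hc2⟩ := order_colour Γ (fun q => (r q).val)
    (fun q q' h => r.injective (Fin.ext h)) t (fun q => Γ.neighborFinset q)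
    (fun v u h _ => by rw [SimpleGraph.mem_neighborFinset]; exact h) (w0 + 1)
    (fun v y => Nat.lt_succ_of_le (ht2 v y))
  -- neighbours of one type
  have hnb : ∀ v y, ((G.neighborFinset v).filter (fun u => t (π u) = y)).card ≤ W := by
    intro v y
    refine le_trans ?_ hwW
    have hmap : ∀ u ∈ (G.neighborFinset v).filter (fun u => t (π u) = y),
        π u ∈ (Γ.neighborFinset (π v)).filter (fun q => t q = y) := by
      intro u hu
      rw [mem_filter, SimpleGraph.mem_neighborFinset] at hu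
      rw [mem_filter, SimpleGraph.mem_neighborFinset, hΓa]
      exact ⟨⟨hπ v u hu.1, v, u, rfl, rfl, hu.1⟩, hu.2⟩
    rw [card_eq_sum_card_fiberwise hmap]
    have hle : ∀ q ∈ (Γ.neighborFinset (π v)).filter (fun q => t q = y),
        (((G.neighborFinset v).filter (fun u => t (π u) = y)).filter (fun u => π u = q)).card ≤
        1 + (if cn (fun v => π v = q) = 2 then 1 else 0) := by
      intro q _
      have h1 : (((G.neighborFinset v).filter (fun u => t (π u) = y)).filter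
          (fun u => π u = q)).card ≤ cn (fun v => π v = q) := by
        apply le_cn
        intro u hu
        rw [mem_filter] at hu
        exact hu.2
      have h2 := hπ2 q
      split_ifs with h
      · omega
      · omega
    refine le_trans (sum_le_sum hle) ?_
    rw [sum_add_distrib, sum_const, smul_eq_mul, mul_one, ← card_filter]
    apply Nat.add_le_add (ht2 _ _)
    refine le_trans (card_le_card ?_) (ht3 (π v) y)
    intro q hq
    rw [mem_filter, mem_filter] at hq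
    rw [mem_filter, mem_filter]
    exact ⟨⟨hq.1.1, hq.2⟩, hq.1.2⟩
  have hTL : TotLab G p (D + 2 * p - 1) := by
    refine structB G 1000 100 W (W2 + 1) p D (by norm_num) (by omega) (fun v => t (π v))
      (fun v => ht1 (π v)) hnb (fun v => c (π v)) ?_ ?_ (by omega) ?_ ?_ ?_ ?_
    · intro v
      have := hc1 (π v)
      change c (π v) < W2 + 1
      omega
    · intro u v huv htt
      exact hc2 (π u) (π v) ((hΓa _ _).2 ⟨hπ u v huv, u, v, rfl, rfl, huv⟩) htt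
    · push_cast
      linarith
    · push_cast
      linarith
    · push_cast
      linarith
    · push_cast
      have : (0 : ℤ) ≤ W2 := by positivity
      linarith
  exact lb_of_totLab G p (D + 2 * p) (by omega) hTL

end Pool.Agent.T9h81.CP
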